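import Pool.Agent.J6H49.KW.Seq
import Pool.Agent.J6H49.OP.Time

/-!
# The world with `UP = PSPACE` and a tally hard set of low density
-/

set_option autoImplicit false

namespace Pool.Agent.J6H49.KW

open Pool.Agent.NPC Pool.Agent.H628R3.RO Filter Pool.Agent.J6H49.OP Pool.Agent.J6H49.IP
open Pool.Agent.J6H54.RO
open Pool.Agent.H620R2.Gauge (SAlg IsPSPACE)
open Pool.Agent.TH678.GC (join)
open Pool.Agent.TH678.RS (bt)
open Pool.Agent.Y626.WX (Cp cod exists_cp)
open Pool.Agent.J6H49.PHC (oracle far)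

/-- what the world satisfies -/
structure World (α f : ℕ → ℕ) (I : Set ℕ) (t : ℕ → ℕ → Oracle → List Bool → Prop) (C O : Oracle)
    (T : ℕ → Bool) (X : Set (List Bool)) : Prop where
  near : NearlyCollapsed α O
  cont : Contains O C
  up : ∀ L, IsPSPACE O L → IsUP O L ∧ IsUP O Lᶜ
  hard : ∀ L, IsPSPACE O L → IsP (join O (tally T)) L
  dens : ∀ n, ((Finset.range (n + 1)).filter fun m => T m = true).card ≤ f n
  np : IsNP O X
  sub : ∀ x ∈ X, ∃ a b n, x = xs a b n
  off : ∀ a b n, xs a b n ∉ X → t a b O (xs a b n)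
  io : ∀ a b, ∃ᶠ n in atTop, n ∈ I ∧ (t a b O (xs a b n) → xs a b n ∉ X)

theorem ev_ok {α f : ℕ → ℕ} {I : Set ℕ} {N : ℕ → ℕ} (hN : Good α f I N)
    (p : ℕ → ℕ → Polynomial ℕ) (a b : ℕ) : ∀ᶠ j in atTop, OKs p N j a b := by
  set P : Polynomial ℕ := (p a b).comp (Polynomial.X + Polynomial.C (a + b + 2)) *
    (Polynomial.X * Polynomial.X) with hP
  have hc : ∃ c : ℕ, ∀ᶠ N : ℕ in atTop, P.eval N ≤ N ^ c := by
    refine ⟨P.natDegree + 1, ?_⟩
    filter_upwards [eventually_ge_atTop (max 1 (P.eval 1))] with N hN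
    have h1 : 1 ≤ N := (le_max_left _ _).trans hN
    have h2 : P.eval 1 ≤ N := (le_max_right _ _).trans hN
    refine (Pool.Agent.J6H7.RO.eval_le_pow _ h1).trans ?_
    rw [pow_succ, mul_comm]
    exact Nat.mul_le_mul_left _ h2
  obtain ⟨c, hc⟩ := hc
  obtain ⟨n₀, hn₀⟩ := eventually_atTop.1 hc
  filter_upwards [eventually_gt_atTop a, eventually_gt_atTop b, eventually_gt_atTop c,
    eventually_ge_atTop n₀] with j h1 h2 h3 h4
  have hge := hN.ge j
  refine ⟨h1, h2, ?_⟩
  have h5 := hn₀ (N j) (by omega)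
  have h6 : P.eval (N j) = (p a b).eval (xs a b (N j)).length * (N j * N j) := by
    rw [hP, length_xs, Polynomial.eval_mul, Polynomial.eval_mul, Polynomial.eval_comp,
      Polynomial.eval_add, Polynomial.eval_X, Polynomial.eval_C]
    have e1 : N j + (a + b + 2) = a + b + N j + 2 := by omega
    rw [e1]
  have h7 : (p a b).eval (xs a b (N j)).length * (j * j) ≤
      (p a b).eval (xs a b (N j)).length * (N j * N j) :=
    Nat.mul_le_mul_left _ (Nat.mul_le_mul (by omega) (by omega))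
  have h8 : N j ^ c < N j ^ j := Nat.pow_lt_pow_right (by omega) h3
  omega

/-- **The world.** -/
theorem engine {α : ℕ → ℕ} (hα : Monotone α) (hα' : Tendsto α atTop atTop) {f : ℕ → ℕ}
    (hf : Monotone f) (hf' : Tendsto f atTop atTop) (C : Oracle) {I : Set ℕ}
    (hI : ∃ᶠ n in atTop, n ∈ I) {t : ℕ → ℕ → Oracle → List Bool → Prop}
    (ht : ∀ a b, IsTest (t a b)) :
    ∃ (O : Oracle) (T : ℕ → Bool) (X : Set (List Bool)), World α f I t C O T X := by
  classical
  obtain ⟨g, hg⟩ := Pool.Agent.H620R2.Gauge.CC.exists_enum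
  obtain ⟨S, Φ, hc⟩ := exists_cp g (bt (slow2 α))
  obtain ⟨N, hN⟩ := exists_good (slow2_mono hα) (slow2_tendsto hα') hf' hI
  choose p hp using ht
  obtain ⟨σ, hσ⟩ := exists_seq (((fun _ => 0), fun _ _ => true) : Dt)
    (fun j σ => (exists_stage hN hp j (OL hc C (TT N σ) (ZZ N σ) (N j))).choose) (by
      intro j σ σ' h
      have h1 := OL_congr (C := C) hc (TT_congr hN h) (ZZ_congr hN h)
      congr 2)
  set T := TT N σ with hT
  set Z := ZZ N σ with hZ
  set O := OO hc C T Z with hO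
  have hst : ∀ j, StOK t p N j (OL hc C T Z (N j)) (σ j) := by
    intro j
    rw [hσ j]
    exact (exists_stage hN hp j (OL hc C (TT N σ) (ZZ N σ) (N j))).choose_spec
  have hZj : ∀ a b j, Z a b (N j) = true ↔ (σ j).2 a b = true := by
    intro a b j
    rw [hZ]
    unfold ZZ
    rw [decide_eq_true_eq]
    constructor
    · exact fun h => h j rfl
    · intro h j' hj'
      rw [← hN.mono.injective hj']
      exact h
  -- the tests at the stages
  have htest : ∀ a b j, OKs p N j a b →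
      (t a b O (xs a b (N j)) ↔ t a b (OL hc C T Z (N j)) (xs a b (N j))) := by
    intro a b j hab
    obtain ⟨Q, hQ1, hQ2, hQ3⟩ := (hst j).2.2 a b hab
    refine hQ3 O fun q hq => ?_
    rw [hO]
    refine OO_eq hc (R := N j ^ j) (fun s hs => hN.far j s hs) (hQ1 q hq) ?_
    intro i hi _ hprot
    exact hQ2 q hq ⟨_, hprot, enc_tp hN (fun j' k => (hst j').1 k) hi⟩
  have hmem : ∀ a b n, xs a b n ∈ XX Z ↔ Z a b n = true := fun a b n => mem_XX
  refine ⟨O, T, XX Z, ?_, ⟨[false, true, false], fun x => rfl⟩, fun L hL => isUP hg hc hL,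
    fun L hL => isP_tally hg hc hL, TT_dens hN hf σ, isNP_XX hc, ?_, ?_, ?_⟩
  · exact nearly hg hα hc (join (fun _ => false) (join C (DD hc C T Z)))
  · rintro x ⟨a, b, i, rfl, -⟩
    exact ⟨a, b, i, rfl⟩
  · intro a b n hx
    rw [hmem] at hx
    by_cases hn : ∃ j, n = N j
    · obtain ⟨j, rfl⟩ := hn
      rw [hZj, (hst j).2.1 a b, not_not] at hx
      exact (htest a b j hx.1).2 hx.2
    · exfalso
      apply hx
      rw [hZ]
      unfold ZZ
      rw [decide_eq_true_eq]
      exact fun j hj => absurd ⟨j, hj⟩ hn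
  · intro a b
    have h1 := ev_ok hN p a b
    rw [frequently_atTop]
    intro m
    obtain ⟨j, hj1, hj2⟩ := (h1.and (eventually_ge_atTop m)).exists
    have := hN.ge j
    refine ⟨N j, by omega, hN.mem j, fun h2 => ?_⟩
    rw [hmem, hZj, (hst j).2.1 a b, not_not]
    exact ⟨hj1, (htest a b j hj1).1 h2⟩

end Pool.Agent.J6H49.KW
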