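import Pool.Agent.J6H49.KW.World

/-!
# Unambiguous polynomial time is polynomial space
-/

set_option autoImplicit false

namespace Pool.Agent.J6H49.KW

open Pool.Agent.NPC Pool.Agent.H628R3.RO Filter Pool.Agent.J6H49.OP Pool.Agent.J6H49.IP
open Pool.Agent.J6H54.RO
open Pool.Agent.H620R2.Gauge (SAlg IsPSPACE)
open Pool.Agent.H620R2.Gauge.CC (Acc cut)
open Pool.Agent.H622R2 (poly_pairBits)
open Pool.Agent.TH678.GC (join)
open Pool.Agent.TH678.RS (bt)
open Pool.Agent.Y626.WX (Cp cod agree_emb)
open Pool.Agent.J6H49.PHC (oracle)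
open Pool.Agent.J6H49.ES (pin pin_inj length_pin p_pin)

theorem pairBits_inj {x x' y y' : List Bool} (h : pairBits x y = pairBits x' y') :
    x = x' ∧ y = y' := by
  have h1 := congrArg unpair h
  rw [unpair_pairBits, unpair_pairBits, Prod.mk.injEq] at h1
  exact h1

section

variable {g : ℕ → SAlg × Polynomial ℕ} {S : ℕ → Polynomial ℕ} {Φ : Oracle → Oracle}
  {α : ℕ → ℕ} {C : Oracle} {T : ℕ → Bool} {Z : ℕ → ℕ → ℕ → Bool}

/-- the cut does not matter -/
theorem acc_iff (hc : Cp g S (bt α) Φ) {B : Oracle} {L : Set (List Bool)} {M : SAlg}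
    {p : Polynomial ℕ} {e : ℕ} (he : g e = (M, p)) (y : List Bool)
    (hM : (∀ s, M.Reach B y s → s.length ≤ p.eval y.length) ∧ ∃ s z, M.Reach B y s ∧
      M.act (pairBits y s) = true :: z ∧ (y ∈ L ↔ z = [true])) :
    Acc (g e).1 (cut ((S e).eval y.length) B) y ↔ y ∈ L := by
  have hloc := hc.loc e
  rw [he] at hloc ⊢
  obtain ⟨hM1, s, z, hs, hz, hLz⟩ := hM
  have hcong : ∀ s, M.Reach (cut ((S e).eval y.length) B) y s ↔ M.Reach B y s := by
    refine Pool.Agent.H620R2.Gauge.CC.reach_congr (fun s => s.length ≤ p.eval y.length) hM1 ?_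
    intro s q h1 h2
    have h3 := hloc y s h1
    rw [h2, List.length_cons] at h3
    unfold cut
    rw [if_pos (by omega)]
  constructor
  · rintro ⟨t, ht, ht2⟩
    have hst := Pool.Agent.H620R2.Gauge.CC.reach_unique hs ((hcong t).1 ht) ⟨_, hz⟩ ⟨_, ht2⟩
    rw [hst, ht2] at hz
    simp only [List.cons.injEq, true_and] at hz
    exact hLz.2 hz.symm
  · intro hx
    refine ⟨s, (hcong s).2 hs, ?_⟩
    rw [hz, hLz.1 hx]

theorem OO_code (hc : Cp g S (bt α) Φ) {e i : ℕ} {w x : List Bool} {b : Bool}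
    {N : ℕ × ℕ × ℕ} :
    OO hc C T Z ([false, true, true, false] ++ pos e i (pairBits w (b :: pin x N))) = true ↔
      w = tp T i ∧ (S e).eval (pin x N).length ≤ i ∧
        (b = true ↔ Acc (g e).1 (cut ((S e).eval (pin x N).length) (OO hc C T Z)) (pin x N)) := by
  show DD hc C T Z (false :: pos e i (pairBits w (b :: pin x N))) = true ↔ _
  rw [DD_iff]
  constructor
  · rintro ⟨i', ⟨e', x', N', b', h1, h2⟩ | ⟨a, b', h1, h2⟩⟩
    · obtain ⟨h3, h4, h5⟩ := pos_inj (List.cons_injective h1)
      obtain ⟨h6, h7⟩ := pairBits_inj h5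
      obtain ⟨h8, h9⟩ := List.cons_eq_cons.1 h7
      obtain ⟨h10, h11⟩ := pin_inj h9
      subst h3 h4 h6 h8 h10 h11
      exact ⟨rfl, h2⟩
    · simp at h1
  · rintro ⟨rfl, h⟩
    exact ⟨i, Or.inl ⟨e, x, N, b, rfl, h⟩⟩

theorem OO_reg (hc : Cp g S (bt α) Φ) {w x : List Bool} :
    OO hc C T Z ([false, true, true, true] ++ pairBits w x) = true ↔
      ∃ a b i, w = tp T i ∧ x = pos a b (List.replicate i true) ∧ Z a b i = true := by
  show DD hc C T Z (true :: pairBits w x) = true ↔ _
  rw [DD_iff]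
  constructor
  · rintro ⟨i', ⟨e', x', N', b', h1, h2⟩ | ⟨a, b', h1, h2⟩⟩
    · simp at h1
    · obtain ⟨h3, h4⟩ := pairBits_inj (List.cons_injective h1)
      exact ⟨a, b', i', h3, h4, h2⟩
  · rintro ⟨a, b, i, rfl, rfl, h⟩
    exact ⟨i, Or.inr ⟨a, b, rfl, h⟩⟩

/-- the level for the input `x` -/
noncomputable def lvx (S : ℕ → Polynomial ℕ) (e : ℕ) (x : List Bool) : ℕ :=
  (S e).eval (pin x (0, 0, 0)).length

theorem u_lvx (S : ℕ → Polynomial ℕ) (e : ℕ) {β : Type} [TEnc β] {x : β → List Bool}
    (hx : Poly x) : UPoly (fun a => lvx S e (x a)) :=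
  UPoly.eval (UPoly.length (p_pin hx (UPoly.const 0) (UPoly.const 0) (UPoly.const 0))) (S e)

/-- the question about `x`, with the witness `w` -/
noncomputable def qs (S : ℕ → Polynomial ℕ) (e : ℕ) (b : Bool) (x w : List Bool) : List Bool :=
  [false, true, true, false] ++ pos e (lvx S e x) (pairBits w (b :: pin x (0, 0, 0)))

theorem p_qs (S : ℕ → Polynomial ℕ) (e : ℕ) (b : Bool) {β : Type} [TEnc β]
    {x w : β → List Bool} (hx : Poly x) (hw : Poly w) : Poly (fun a => qs S e b (x a) (w a)) :=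
  Poly.append (NPC.Poly.const _) (p_pos (UPoly.const e) (u_lvx S e hx)
    (poly_pairBits hw (Poly.cons (NPC.Poly.const b)
      (p_pin hx (UPoly.const 0) (UPoly.const 0) (UPoly.const 0)))))

theorem exists_code (hg : Function.Surjective g) (hc : Cp g S (bt α) Φ) {L : Set (List Bool)}
    (hL : IsPSPACE (OO hc C T Z) L) : ∃ e : ℕ, ∀ (x w : List Bool) (b : Bool),
      OO hc C T Z (qs S e b x w) = true ↔ w = tp T (lvx S e x) ∧ (b = true ↔ x ∈ L) := by
  have hp : Poly (fun y : List Bool => (unpair y).1) := Poly.fst poly_unpair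
  obtain ⟨M, p, hM⟩ := hL.precomp hp
  obtain ⟨e, he⟩ := hg (M, p)
  refine ⟨e, fun x w b => ?_⟩
  unfold qs
  rw [OO_code hc, acc_iff (L := {y : List Bool | (unpair y).1 ∈ L}) hc he (pin x (0, 0, 0))
    (hM _)]
  have h1 : pin x (0, 0, 0) ∈ {y : List Bool | (unpair y).1 ∈ L} ↔ x ∈ L := by
    show (unpair (pin x (0, 0, 0))).1 ∈ L ↔ _
    unfold pin
    rw [unpair_pairBits]
  rw [h1]
  constructor
  · rintro ⟨h2, -, h3⟩
    exact ⟨h2, h3⟩
  · rintro ⟨h2, h3⟩
    exact ⟨h2, le_rfl, h3⟩

/-- a polynomial bound for the length of the witness -/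
theorem exists_wl (S : ℕ → Polynomial ℕ) (e : ℕ) (T : ℕ → Bool) :
    ∃ p : Polynomial ℕ, ∀ x : List Bool, (tp T (lvx S e x)).length ≤ p.eval x.length := by
  refine ⟨((S e).comp (2 * Polynomial.X + 3) + 1) ^ 3, fun x => ?_⟩
  rw [length_tp]
  unfold lvx
  rw [length_pin]
  simp only [Polynomial.eval_pow, Polynomial.eval_add, Polynomial.eval_comp, Polynomial.eval_mul,
    Polynomial.eval_X, Polynomial.eval_ofNat, Polynomial.eval_one]
  apply le_of_eq
  congr 3

theorem isUP_aux (hg : Function.Surjective g) (hc : Cp g S (bt α) Φ) {L : Set (List Bool)}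
    (hL : IsPSPACE (OO hc C T Z) L) (c : Bool) :
    IsUP (OO hc C T Z) {x | c = true ↔ x ∈ L} := by
  obtain ⟨e, he⟩ := exists_code hg hc hL
  obtain ⟨p, hp⟩ := exists_wl S e T
  refine ⟨fun z => [OO hc C T Z (qs S e c (unpair z).1 (unpair z).2)], p, ?_, fun x => ?_,
    fun x w w' _ _ h1 h2 => ?_⟩
  · exact IsFP.tt (Q := fun z => [qs S e c (unpair z).1 (unpair z).2]) (H := fun p => p.2)
      (Poly.cons (p_qs S e c (Poly.fst poly_unpair) (Poly.snd poly_unpair)) (NPC.Poly.const []))
      (Poly.snd Poly.id)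
  · constructor
    · intro hx
      refine ⟨tp T (lvx S e x), hp x, ?_⟩
      show [OO hc C T Z (qs S e c (unpair (pairBits x _)).1 (unpair (pairBits x _)).2)] = [true]
      rw [unpair_pairBits, (he x _ c).2 ⟨rfl, hx⟩]
    · rintro ⟨w, -, hw⟩
      change [OO hc C T Z (qs S e c (unpair (pairBits x w)).1 (unpair (pairBits x w)).2)] =
        [true] at hw
      rw [unpair_pairBits, List.cons.injEq] at hw
      exact ((he x w c).1 hw.1).2
  · change [OO hc C T Z (qs S e c (unpair (pairBits x w)).1 (unpair (pairBits x w)).2)] =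
      [true] at h1
    change [OO hc C T Z (qs S e c (unpair (pairBits x w')).1 (unpair (pairBits x w')).2)] =
      [true] at h2
    rw [unpair_pairBits, List.cons.injEq] at h1 h2
    rw [((he x w c).1 h1.1).1, ((he x w' c).1 h2.1).1]

/-- **Polynomial space is contained in `UP`** -/
theorem isUP (hg : Function.Surjective g) (hc : Cp g S (bt α) Φ) {L : Set (List Bool)}
    (hL : IsPSPACE (OO hc C T Z) L) : IsUP (OO hc C T Z) L ∧ IsUP (OO hc C T Z) Lᶜ := by
  constructor
  · have h := isUP_aux hg hc hL true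
    have e1 : {x : List Bool | true = true ↔ x ∈ L} = L := by
      ext x
      simp
    rwa [e1] at h
  · have h := isUP_aux hg hc hL false
    have e1 : {x : List Bool | false = true ↔ x ∈ L} = Lᶜ := by
      ext x
      simp
    rwa [e1] at h

/-- the tally set -/
def tally (T : ℕ → Bool) : Oracle := fun u => decide (u = List.replicate u.length true) && T u.length

theorem tally_at (T : ℕ → Bool) (m : ℕ) : tally T (List.replicate m true) = T m := by
  simp [tally]

/-- **The tally set is hard for polynomial space.** -/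
theorem isP_tally (hg : Function.Surjective g) (hc : Cp g S (bt α) Φ) {L : Set (List Bool)}
    (hL : IsPSPACE (OO hc C T Z) L) : IsP (join (OO hc C T Z) (tally T)) L := by
  obtain ⟨e, he⟩ := exists_code hg hc hL
  set B := join (OO hc C T Z) (tally T) with hB
  have hu : UPoly (fun x : List Bool => (lvx S e x + 1) ^ 3) := by
    have h := UPoly.eval (u_lvx S e (x := fun x : List Bool => x) Poly.id) ((Polynomial.X + 1) ^ 3)
    simpa using h
  have h1 : IsFP B (fun x => pairBits x
      (((List.range ((lvx S e x + 1) ^ 3)).map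
        fun m => true :: List.replicate (min m ((lvx S e x + 1) ^ 3)) true).map B)) := by
    refine IsFP.tt (Q := fun x => (List.range ((lvx S e x + 1) ^ 3)).map
        fun m => true :: List.replicate (min m ((lvx S e x + 1) ^ 3)) true)
      (H := fun p => pairBits p.1 p.2) ?_ (poly_pairBits (Poly.fst Poly.id) (Poly.snd Poly.id))
    have a1 : Poly (fun p : List Bool × ℕ => p.1) := Poly.fst Poly.id
    have a2 : Poly (fun p : List Bool × ℕ => p.2) := Poly.snd Poly.id
    have h3 : UPoly (fun p : List Bool × ℕ => min p.2 ((lvx S e p.1 + 1) ^ 3)) :=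
      UPoly.of_le (Poly.min a2 ((hu.comp a1).toPoly)) (hu.comp a1) fun p => min_le_right _ _
    exact NPC.Poly.map (F := fun (x : List Bool) m =>
      true :: List.replicate (min m ((lvx S e x + 1) ^ 3)) true) hu.range
      (Poly.cons (NPC.Poly.const true) (p_replicate h3 true))
  have h2 : IsFP B (fun z => [B (false :: qs S e true (unpair z).1 (unpair z).2)]) :=
    IsFP.tt (Q := fun z => [false :: qs S e true (unpair z).1 (unpair z).2]) (H := fun p => p.2)
      (Poly.cons (Poly.cons (NPC.Poly.const false)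
        (p_qs S e true (Poly.fst poly_unpair) (Poly.snd poly_unpair))) (NPC.Poly.const []))
      (Poly.snd Poly.id)
  refine ⟨_, IsFP.comp h2 h1, fun x => ?_⟩
  have h3 : ((List.range ((lvx S e x + 1) ^ 3)).map
        fun m => true :: List.replicate (min m ((lvx S e x + 1) ^ 3)) true).map B =
      tp T (lvx S e x) := by
    unfold tp
    rw [List.map_map]
    apply List.map_congr_left
    intro m hm
    rw [List.mem_range] at hm
    show tally T (List.replicate (min m _) true) = T m
    rw [min_eq_left hm.le, tally_at]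
  show x ∈ L ↔ [B (false :: qs S e true (unpair (pairBits x _)).1 (unpair (pairBits x _)).2)] =
    [true]
  rw [unpair_pairBits, h3]
  show x ∈ L ↔ [OO hc C T Z (qs S e true x (tp T (lvx S e x)))] = [true]
  rw [List.cons.injEq, he]
  simp

/-- the special language -/
def XX (Z : ℕ → ℕ → ℕ → Bool) : Set (List Bool) :=
  {x | ∃ a b i, x = pos a b (List.replicate i true) ∧ Z a b i = true}

theorem isNP_XX (hc : Cp g S (bt α) Φ) : IsNP (OO hc C T Z) (XX Z) := by
  refine ⟨fun z => [OO hc C T Z ([false, true, true, true] ++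
    pairBits (unpair z).2 (unpair z).1)], (Polynomial.X + 1) ^ 3, ?_, fun x => ?_⟩
  · exact IsFP.tt (Q := fun z => [[false, true, true, true] ++
      pairBits (unpair z).2 (unpair z).1]) (H := fun p => p.2)
      (Poly.cons (Poly.append (NPC.Poly.const _)
        (poly_pairBits (Poly.snd poly_unpair) (Poly.fst poly_unpair))) (NPC.Poly.const []))
      (Poly.snd Poly.id)
  · constructor
    · rintro ⟨a, b, i, rfl, h⟩
      refine ⟨tp T i, ?_, ?_⟩
      · rw [length_tp, length_pos, List.length_replicate]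
        simp only [Polynomial.eval_pow, Polynomial.eval_add, Polynomial.eval_X,
          Polynomial.eval_one]
        exact Nat.pow_le_pow_left (by omega) 3
      · simp only [unpair_pairBits]
        rw [(OO_reg hc).2 ⟨a, b, i, rfl, rfl, h⟩]
    · rintro ⟨w, -, hw⟩
      simp only [unpair_pairBits] at hw
      rw [List.cons.injEq, OO_reg hc] at hw
      obtain ⟨⟨a, b, i, -, h1, h2⟩, -⟩ := hw
      exact ⟨a, b, i, h1, h2⟩

theorem mem_XX {a b i : ℕ} : pos a b (List.replicate i true) ∈ XX Z ↔ Z a b i = true := by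
  constructor
  · rintro ⟨a', b', i', h1, h2⟩
    obtain ⟨h3, h4, h5⟩ := pos_inj h1
    have h6 := congrArg List.length h5
    rw [List.length_replicate, List.length_replicate] at h6
    subst h3 h4 h6
    exact h2
  · exact fun h => ⟨a, b, i, rfl, h⟩

end

end Pool.Agent.J6H49.KW
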