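import Pool.Agent.J6H49.KW.Main
import Pool.Agent.J6H49.ES.POpt
import Pool.Agent.H628R3.RO.G1

/-!
# No `p`-optimal proof systems
-/

set_option autoImplicit false

namespace Pool.Agent.J6H49.KW

open Pool.Agent.NPC Pool.Agent.H628R3.RO Filter Pool.Agent.J6H49.OP Pool.Agent.J6H49.IP
open Pool.Agent.J6H54.RO
open Pool.Agent.H620R2.Gauge (SAlg IsPSPACE)
open Pool.Agent.TH678.GC (join)
open Pool.Agent.J6H49.ES (isFP_guard isFP_guard')

/-- the algorithm `h` computes a proof of `x` in the system `M` -/
def tPO (M h : Alg) (B : Oracle) (x : List Bool) : Prop :=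
  ∃ w, h.out B (false :: x) = some w ∧ M.out B w = some x

theorem isTest_PO (M h : Alg) : IsTest (tPO M h) := by
  classical
  obtain ⟨b, hb⟩ := h.out_length
  refine ⟨(h.p + qb h + (M.p + qb M).comp b).comp (Polynomial.X + 1), fun B x => ?_⟩
  have hev : ((h.p + qb h + (M.p + qb M).comp b).comp (Polynomial.X + 1)).eval x.length =
      h.p.eval (x.length + 1) + (qb h).eval (x.length + 1) +
        (M.p.eval (b.eval (x.length + 1)) + (qb M).eval (b.eval (x.length + 1))) := by
    simp only [Polynomial.eval_comp, Polynomial.eval_add, Polynomial.eval_X, Polynomial.eval_one]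
  rw [hev]
  obtain ⟨Q₁, h1, h2, h3⟩ := qb_spec h B (false :: x)
  rw [List.length_cons] at h1 h2
  rcases ho : h.out B (false :: x) with _ | w
  · refine ⟨Q₁, by omega, fun q hq => (h2 q hq).trans (by omega), fun B' hB' => ?_⟩
    have h4 := h3 B' hB'
    unfold tPO
    rw [h4, ho]
    simp
  · obtain ⟨Q₂, k1, k2, k3⟩ := qb_spec M B w
    have hw := hb B (false :: x) w ho
    rw [List.length_cons] at hw
    have e1 : M.p.eval w.length ≤ M.p.eval (b.eval (x.length + 1)) := eval_mono _ hw
    have e2 : (qb M).eval w.length ≤ (qb M).eval (b.eval (x.length + 1)) := eval_mono _ hw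
    refine ⟨Q₁ ∪ Q₂, (Finset.card_union_le _ _).trans (by omega), fun q hq => ?_,
      fun B' hB' => ?_⟩
    · rcases Finset.mem_union.1 hq with hq | hq
      · exact (h2 q hq).trans (by omega)
      · exact (k2 q hq).trans (by omega)
    · have h4 := h3 B' fun q hq => hB' q (Finset.mem_union_left _ hq)
      have h5 := k3 B' fun q hq => hB' q (Finset.mem_union_right _ hq)
      unfold tPO
      rw [h4, ho]
      simp only [Option.some.injEq, exists_eq_left', h5]

/-- the strings for the tests `(a, b)` with the given `a` -/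
def isx (a : ℕ) (y : List Bool) : Bool :=
  decide (y = pos a (lvl (y.drop (a + 1)))
    (List.replicate (y.length - (a + lvl (y.drop (a + 1)) + 2)) true))

theorem lvl_replicate (b : ℕ) (w : List Bool) : lvl (List.replicate b true ++ false :: w) = b := by
  unfold lvl
  induction b with
  | zero => simp
  | succ b ih =>
    rw [List.replicate_succ, List.cons_append, List.takeWhile_cons]
    simp only [id, if_true, List.length_cons, ih]

theorem isx_iff {a : ℕ} {y : List Bool} : isx a y = true ↔ ∃ b n, y = xs a b n := by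
  unfold isx
  rw [decide_eq_true_eq]
  constructor
  · intro h
    exact ⟨_, _, h⟩
  · rintro ⟨b, n, rfl⟩
    have h1 : (xs a b n).drop (a + 1) = List.replicate b true ++ false :: List.replicate n true := by
      unfold xs pos
      rw [List.drop_append, List.length_replicate]
      simp
    rw [h1, lvl_replicate, length_xs]
    have h2 : a + b + n + 2 - (a + b + 2) = n := by omega
    rw [h2]
    rfl

theorem p_isx (a : ℕ) : Poly (isx a) := by
  have h1 : UPoly (fun y : List Bool => lvl (y.drop (a + 1))) :=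
    u_lvl (p_drop Poly.id (UPoly.const (a + 1)))
  have h2 : UPoly (fun y : List Bool => y.length - (a + lvl (y.drop (a + 1)) + 2)) := by
    refine UPoly.of_le (Poly.sub (Poly.length Poly.id) (Poly.add (Poly.add (NPC.Poly.const a)
      h1.toPoly) (NPC.Poly.const 2))) (UPoly.length Poly.id) fun y => Nat.sub_le _ _
  exact Poly.decide_eq Poly.id (p_pos (UPoly.const a) h1 (p_replicate h2 true))

/-- the additional proofs -/
def sysQ (a : ℕ) (P : List Bool → List Bool) (x₀ z : List Bool) : List Bool :=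
  if z.head? = some true then P z.tail
  else if isx a z.tail = true then z.tail else x₀

theorem isFP_sysQ {B : Oracle} {P : List Bool → List Bool} (hP : IsFP B P) (a : ℕ)
    (x₀ : List Bool) : IsFP B (sysQ a P x₀) := by
  have ht : Poly (fun z : List Bool => z.tail) := Poly.tail Poly.id
  have h1 : IsFP B (fun z : List Bool => if isx a z.tail = true then z.tail else x₀) :=
    IsFP.of_poly (Poly.ite (((p_isx a).comp ht).congr fun z => by simp) ht (NPC.Poly.const _))
  have h2 : IsFP B (fun z : List Bool => P z.tail) := IsFP.comp hP (IsFP.of_poly ht)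
  refine IsFP.seq (φ := fun p => p.1) (ψ := fun p => if p.1.head? = some true
    then p.2.2 else p.2.1) h1 h2 (Poly.fst Poly.id) ?_
  exact Poly.ite (Poly.decide_eq (Poly.head? (Poly.fst Poly.id)) (NPC.Poly.const _))
    (Poly.snd (Poly.snd Poly.id)) (Poly.fst (Poly.snd Poly.id))

theorem exists_algs : ∃ en : ℕ → Alg, Function.Surjective en := by
  have hne : Nonempty Alg := ⟨⟨_, Pool.Agent.H620R2.Gauge.CC.const_polyTime [], 0⟩⟩
  exact exists_surjective_nat Alg

section

variable {α f : ℕ → ℕ} {I : Set ℕ} {C O : Oracle} {T : ℕ → Bool} {X : Set (List Bool)}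
  {en : ℕ → Alg}

/-- **There is no `p`-optimal proof system.** -/
theorem World.no_pOptimal_X (hen : Function.Surjective en)
    (hW : World α f I (fun a b => tPO (en a) (en b)) C O T X) : ¬ ∃ P, IsPOptimal O X P := by
  rintro ⟨P, ⟨⟨M, hM⟩, hPX⟩, hopt⟩
  obtain ⟨a, ha⟩ := hen M
  have hx₀ : P [] ∈ X := by
    rw [← hPX]
    exact ⟨[], rfl⟩
  have hall : ∀ b n, xs a b n ∈ X := by
    intro b n
    by_contra hcon
    obtain ⟨w, -, hw⟩ := hW.off a b n hcon
    rw [ha, hM w, Option.some.injEq] at hw
    apply hcon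
    rw [← hPX, ← hw]
    exact ⟨w, rfl⟩
  have hQ : IsProofSystem O X (sysQ a P (P [])) := by
    refine ⟨isFP_sysQ ⟨M, hM⟩ a _, ?_⟩
    apply Set.Subset.antisymm
    · rintro x ⟨z, rfl⟩
      unfold sysQ
      split_ifs with h1 h2
      · rw [← hPX]
        exact ⟨_, rfl⟩
      · obtain ⟨b, n, h3⟩ := isx_iff.1 h2
        rw [h3]
        exact hall b n
      · exact hx₀
    · intro x hx
      rw [← hPX] at hx
      obtain ⟨v, rfl⟩ := hx
      refine ⟨true :: v, ?_⟩
      unfold sysQ
      rw [if_pos (by simp), List.tail_cons]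
  obtain ⟨h, ⟨H, hH⟩, hh⟩ := hopt _ hQ
  obtain ⟨b, hb⟩ := hen H
  obtain ⟨n, -, hn⟩ := (hW.io a b).exists
  refine hn ⟨h (false :: xs a b n), ?_, ?_⟩ (hall b n)
  · rw [hb]
    exact hH _
  · rw [ha, hM, hh]
    unfold sysQ
    rw [if_neg (by simp), List.tail_cons, if_pos (isx_iff.2 ⟨b, n, rfl⟩)]

theorem World.no_pOptimal (hen : Function.Surjective en)
    (hW : World α f I (fun a b => tPO (en a) (en b)) C O T X) (hne : X.Nonempty)
    {L : Set (List Bool)} (hL : NPHardRel O L) : ¬ ∃ P, IsPOptimal O L P := by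
  rintro ⟨P, hP⟩
  exact hW.no_pOptimal_X hen (hP.transfer (hL X hW.np) hne)

theorem World.nonempty (hen : Function.Surjective en)
    (hW : World α f I (fun a b => tPO (en a) (en b)) C O T X) : X.Nonempty := by
  by_contra hcon
  rw [Set.not_nonempty_iff_eq_empty] at hcon
  obtain ⟨M, hM⟩ : IsFP O fun _ => [] := IsFP.of_poly (NPC.Poly.const [])
  obtain ⟨a, ha⟩ := hen M
  obtain ⟨w, -, hw⟩ := hW.off a 0 0 (by rw [hcon]; exact Set.notMem_empty _)
  rw [ha, hM w, Option.some.injEq] at hw
  have h1 := congrArg List.length hw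
  rw [length_xs] at h1
  simp at h1

/-- The set `X` is not in `P`. -/
theorem World.not_P (hen : Function.Surjective en)
    (hW : World α f I (fun a b => tPO (en a) (en b)) C O T X) (hne : X.Nonempty) : ¬ IsP O X := by
  rintro ⟨V, hV, hX⟩
  obtain ⟨x₀, hx₀⟩ := hne
  refine hW.no_pOptimal_X hen ⟨fun z => if V z = [true] then z else x₀,
    ⟨isFP_guard hV (IsFP.of_poly Poly.id) x₀, ?_⟩, fun Q hQ => ⟨Q, hQ.1, fun w => ?_⟩⟩
  · apply Set.Subset.antisymm
    · rintro x ⟨z, rfl⟩
      dsimp only
      split_ifs with h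
      · exact (hX z).2 h
      · exact hx₀
    · intro x hx
      refine ⟨x, ?_⟩
      dsimp only
      rw [if_pos ((hX x).1 hx)]
  · have h1 : Q w ∈ X := by
      rw [← hQ.2]
      exact ⟨w, rfl⟩
    dsimp only
    rw [if_pos ((hX _).1 h1)]

end

theorem isNP_of_isUP {B : Oracle} {L : Set (List Bool)} (h : IsUP B L) : IsNP B L := by
  obtain ⟨V, p, h1, h2, -⟩ := h
  exact ⟨V, p, h1, h2⟩

/-- Nonempty sets in `NP` have optimal proof systems. -/
theorem exists_optimal {B : Oracle} {L : Set (List Bool)} (h : IsNP B L) (hne : L.Nonempty) :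
    ∃ P, IsOptimal B L P := by
  obtain ⟨V, p, hV, hx⟩ := h
  obtain ⟨x₀, hx₀⟩ := hne
  have h1 : Poly (fun v : List Bool => (unpair v).1) := Poly.fst poly_unpair
  have h2 : Poly (fun v : List Bool => (unpair v).2) := Poly.snd poly_unpair
  set P : List Bool → List Bool := fun z =>
    if V (pairBits (unpair z).1 (unpair z).2) = [true] then
      (if (unpair z).2.length ≤ p.eval (unpair z).1.length then (unpair z).1 else x₀) else x₀
    with hP
  have hPF : IsFP B P := by
    refine isFP_guard (IsFP.comp hV (IsFP.of_poly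
      (Pool.Agent.H622R2.poly_pairBits h1 h2))) (IsFP.of_poly ?_) x₀
    exact Poly.ite (Poly.decide_le (UPoly.length h2).toPoly
      (UPoly.eval (UPoly.length h1) p).toPoly) h1 (NPC.Poly.const _)
  have hPL : ∀ z, P z ∈ L := by
    intro z
    rw [hP]
    dsimp only
    split_ifs with h3 h4
    · exact (hx _).2 ⟨_, h4, h3⟩
    · exact hx₀
    · exact hx₀
  have hPw : ∀ x w, w.length ≤ p.eval x.length → V (pairBits x w) = [true] →
      P (pairBits x w) = x := by
    intro x w h3 h4
    rw [hP]
    dsimp only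
    rw [unpair_pairBits, if_pos h4, if_pos h3]
  refine ⟨P, ⟨hPF, ?_⟩, fun Q hQ => ?_⟩
  · apply Set.Subset.antisymm
    · rintro x ⟨z, rfl⟩
      exact hPL z
    · intro x h3
      obtain ⟨w, h4, h5⟩ := (hx x).1 h3
      exact ⟨pairBits x w, hPw x w h4 h5⟩
  · obtain ⟨b, hb⟩ := IsFP.length_le hQ.1
    refine ⟨2 * b + 1 + p.comp b, fun w => ?_⟩
    have h3 : Q w ∈ L := by
      rw [← hQ.2]
      exact ⟨w, rfl⟩
    obtain ⟨v, h4, h5⟩ := (hx _).1 h3
    refine ⟨pairBits (Q w) v, hPw _ _ h4 h5, ?_⟩
    rw [length_pairBits]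
    simp only [Polynomial.eval_add, Polynomial.eval_mul, Polynomial.eval_ofNat,
      Polynomial.eval_one, Polynomial.eval_comp]
    have h6 := hb w
    have h7 : p.eval (Q w).length ≤ p.eval (b.eval w.length) := eval_mono _ h6
    omega

end Pool.Agent.J6H49.KW
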