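import Pool.Agent.J6H49.KW.Class

/-!
# The tally set
-/

set_option autoImplicit false

namespace Pool.Agent.J6H49.KW

open Pool.Agent.NPC Pool.Agent.H628R3.RO Filter Pool.Agent.J6H49.OP Pool.Agent.J6H49.IP
open Pool.Agent.J6H54.RO
open Pool.Agent.H620R2.Gauge (SAlg IsPSPACE)
open Pool.Agent.TH678.GC (join)
open Pool.Agent.TH678.RS (bt)
open Pool.Agent.Y626.WX (Cp)
open Pool.Agent.J6H49.PHC (oracle far)

/-- A test: a property of strings relative to an oracle which depends on a few short strings of the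
oracle only. -/
def IsTest (t : Oracle → List Bool → Prop) : Prop :=
  ∃ p : Polynomial ℕ, ∀ (B : Oracle) (x : List Bool), ∃ Q : Finset (List Bool),
    Q.card ≤ p.eval x.length ∧ (∀ q ∈ Q, q.length ≤ p.eval x.length) ∧
    ∀ B' : Oracle, (∀ q ∈ Q, B' q = B q) → (t B' x ↔ t B x)

/-- sequences defined by recursion -/
theorem exists_seq {Λ : Type} (d : Λ) (F : ℕ → (ℕ → Λ) → Λ)
    (hF : ∀ j σ σ', (∀ i < j, σ i = σ' i) → F j σ = F j σ') :
    ∃ σ : ℕ → Λ, ∀ j, σ j = F j σ := by
  set Ψ : (ℕ → Λ) → (ℕ → Λ) := fun σ j => F j σ with hΨ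
  have key : ∀ (n k k' : ℕ), n ≤ k → n ≤ k' → ∀ j < n,
      (Ψ^[k] (fun _ => d)) j = (Ψ^[k'] (fun _ => d)) j := by
    intro n
    induction n with
    | zero => intro k k' _ _ x hx; omega
    | succ n ih =>
      intro k k' hk hk' x hx
      obtain ⟨k, rfl⟩ : ∃ i, k = i + 1 := ⟨k - 1, by omega⟩
      obtain ⟨k', rfl⟩ : ∃ i, k' = i + 1 := ⟨k' - 1, by omega⟩
      rw [Function.iterate_succ_apply', Function.iterate_succ_apply']
      exact hF _ _ _ fun y hy => ih k k' (by omega) (by omega) y (by omega)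
  refine ⟨fun j => (Ψ^[j + 1] (fun _ => d)) j, fun j => ?_⟩
  show (Ψ^[j + 1] (fun _ => d)) j = _
  rw [Function.iterate_succ_apply']
  refine hF _ _ _ fun y hy => ?_
  exact key (y + 1) _ _ (by omega) (by omega) y (by omega)

/-- The data of a stage: the elements of the tally set, and the truth values. -/
abbrev Dt : Type := (ℕ → ℕ) × (ℕ → ℕ → Bool)

open Classical in
/-- the tally set given by the data -/
noncomputable def TT (N : ℕ → ℕ) (σ : ℕ → Dt) (m : ℕ) : Bool :=
  decide (∃ j k, k < j ∧ m = N j ^ 3 + k * N j + (σ j).1 k)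

open Classical in
/-- the truth values -/
noncomputable def ZZ (N : ℕ → ℕ) (σ : ℕ → Dt) (a b n : ℕ) : Bool :=
  decide (∀ j, n = N j → (σ j).2 a b = true)

/-- the properties of the sequence of the stages -/
structure Good (α f : ℕ → ℕ) (I : Set ℕ) (N : ℕ → ℕ) : Prop where
  mem : ∀ j, N j ∈ I
  mono : StrictMono N
  ge : ∀ j, j + 2 ≤ N j
  far : ∀ j s, N j ≤ s → N j ^ j < s ^ (bt α s + 1)
  next : ∀ j, N j ^ j < N (j + 1)
  dens : ∀ j, (j + 1) ^ 2 ≤ f (N j)

theorem exists_good {α f : ℕ → ℕ} (hα : Monotone α) (hα' : Tendsto α atTop atTop)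
    (hf' : Tendsto f atTop atTop) {I : Set ℕ} (hI : ∃ᶠ n in atTop, n ∈ I) :
    ∃ N : ℕ → ℕ, Good α f I N := by
  have h1 : ∀ j m : ℕ, ∃ n, n ∈ I ∧ m ≤ n ∧ j + 2 ≤ n ∧
      (∀ s, n ≤ s → n ^ j < s ^ (bt α s + 1)) ∧ (j + 1) ^ 2 ≤ f n := by
    intro j m
    obtain ⟨n, h2, h3⟩ := (hI.and_eventually ((eventually_ge_atTop m).and
      ((eventually_ge_atTop (j + 2)).and ((far hα hα' j).and
        (hf'.eventually_ge_atTop ((j + 1) ^ 2)))))).exists
    exact ⟨n, h2, h3.1, h3.2.1, h3.2.2.1, h3.2.2.2⟩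
  choose G hG1 hG2 hG3 hG4 hG5 using h1
  set N : ℕ → ℕ := fun j => Nat.rec (G 0 0) (fun i n => G (i + 1) (n ^ i + n + 1)) j with hN
  have hs : ∀ j, N (j + 1) = G (j + 1) (N j ^ j + N j + 1) := fun j => rfl
  have hform : ∀ j, ∃ m, N j = G j m := by
    intro j
    cases j with
    | zero => exact ⟨0, rfl⟩
    | succ j => exact ⟨_, hs j⟩
  refine ⟨N, fun j => ?_, strictMono_nat_of_lt_succ fun j => ?_, fun j => ?_, fun j => ?_,
    fun j => ?_, fun j => ?_⟩
  · obtain ⟨m, hm⟩ := hform j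
    rw [hm]
    exact hG1 _ _
  · have := hG2 (j + 1) (N j ^ j + N j + 1)
    rw [hs]
    omega
  · obtain ⟨m, hm⟩ := hform j
    rw [hm]
    exact hG3 _ _
  · obtain ⟨m, hm⟩ := hform j
    rw [hm]
    exact hG4 _ _
  · have := hG2 (j + 1) (N j ^ j + N j + 1)
    rw [hs]
    omega
  · obtain ⟨m, hm⟩ := hform j
    rw [hm]
    exact hG5 _ _

section

variable {α f : ℕ → ℕ} {I : Set ℕ} {N : ℕ → ℕ}

theorem TT_congr (hN : Good α f I N) {σ σ' : ℕ → Dt} {j : ℕ} (h : ∀ i < j, σ i = σ' i) :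
    ∀ m < N j ^ 3, TT N σ m = TT N σ' m := by
  intro m hm
  have h1 : ∀ i k c, m = N i ^ 3 + k * N i + c → i < j := by
    intro i k c hi
    by_contra hcon
    push Not at hcon
    have h2 : N j ^ 3 ≤ N i ^ 3 := Nat.pow_le_pow_left (hN.mono.monotone hcon) 3
    omega
  unfold TT
  apply decide_eq_decide.2
  constructor
  · rintro ⟨i, k, h2, h3⟩
    exact ⟨i, k, h2, by rw [← h i (h1 _ _ _ h3)]; exact h3⟩
  · rintro ⟨i, k, h2, h3⟩
    exact ⟨i, k, h2, by rw [h i (h1 _ _ _ h3)]; exact h3⟩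

theorem ZZ_congr (hN : Good α f I N) {σ σ' : ℕ → Dt} {j : ℕ} (h : ∀ i < j, σ i = σ' i) :
    ∀ a b, ∀ n < N j, ZZ N σ a b n = ZZ N σ' a b n := by
  intro a b n hn
  unfold ZZ
  apply decide_eq_decide.2
  refine forall_congr' fun i => ?_
  constructor
  · intro h1 h2
    rw [h2] at hn
    rw [← h i (hN.mono.lt_iff_lt.1 hn)]
    exact h1 h2
  · intro h1 h2
    rw [h2] at hn
    rw [h i (hN.mono.lt_iff_lt.1 hn)]
    exact h1 h2

/-- The string `w` contains the `j` numbers given by `c`. -/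
def Enc (n j : ℕ) (c : ℕ → ℕ) (w : List Bool) : Prop :=
  ∀ k < j, ∀ r < n, w.getD (n ^ 3 + k * n + r) false = decide (r = c k)

theorem Enc.unique {n j : ℕ} {c c' : ℕ → ℕ} {w : List Bool} (hc : ∀ k, c k < n)
    (h : Enc n j c w) (h' : Enc n j c' w) : ∀ k < j, c k = c' k := by
  intro k hk
  have h1 := h k hk (c k) (hc k)
  have h2 := h' k hk (c k) (hc k)
  rw [h1] at h2
  simpa using h2

theorem block_bound {n j k r : ℕ} (hj : j + 2 ≤ n) (hk : k < j) (hr : r < n) :
    n ^ 3 + k * n + r < (n + 1) ^ 3 := by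
  have h1 : k * n + n ≤ n * n := by
    calc k * n + n = (k + 1) * n := by ring
      _ ≤ n * n := Nat.mul_le_mul_right _ (by omega)
  have h2 : (n + 1) ^ 3 = n ^ 3 + 3 * (n * n) + 3 * n + 1 := by ring
  rw [h2]
  nlinarith

theorem enc_tp (hN : Good α f I N) {σ : ℕ → Dt} (hσ : ∀ j k, (σ j).1 k < N j) {i j : ℕ}
    (hi : N j ≤ i) : Enc (N j) j (σ j).1 (tp (TT N σ) i) := by
  intro k hk r hr
  have h1 := block_bound (hN.ge j) hk hr
  have h2 : (N j + 1) ^ 3 ≤ (i + 1) ^ 3 := Nat.pow_le_pow_left (by omega) 3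
  unfold tp
  rw [List.getD_eq_getElem?_getD, List.getElem?_map, List.getElem?_range (by omega)]
  show TT N σ (N j ^ 3 + k * N j + r) = _
  unfold TT
  apply decide_eq_decide.2
  constructor
  · rintro ⟨j', k', h3, h4⟩
    have h5 := block_bound (hN.ge j') h3 (hσ j' k')
    have h6 : j' = j := by
      rcases lt_trichotomy j' j with h | h | h
      · have h7 : (N j' + 1) ^ 3 ≤ N j ^ 3 := Nat.pow_le_pow_left (hN.mono h) 3
        omega
      · exact h
      · have h7 : (N j + 1) ^ 3 ≤ N j' ^ 3 := Nat.pow_le_pow_left (hN.mono h) 3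
        omega
    subst h6
    have h7 : k * N j' + r = k' * N j' + (σ j').1 k' := by omega
    have h8 := hσ j' k'
    have h9 : k = k' := by
      have e1 : (k * N j' + r) / N j' = k := by
        rw [add_comm, Nat.add_mul_div_right _ _ (by omega), Nat.div_eq_of_lt hr]
        omega
      have e2 : (k' * N j' + (σ j').1 k') / N j' = k' := by
        rw [add_comm, Nat.add_mul_div_right _ _ (by omega), Nat.div_eq_of_lt h8]
        omega
      rw [← e1, h7, e2]
    subst h9
    omega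
  · intro h3
    exact ⟨j, k, hk, by rw [h3]⟩

/-- The question `q` is protected by a string which contains the numbers given by `c`. -/
def KeyBy (n j : ℕ) (c : ℕ → ℕ) (q : List Bool) : Prop := ∃ w, Prot n w q ∧ Enc n j c w

theorem Prot.unique {n : ℕ} {w w' q : List Bool} (h : Prot n w q) (h' : Prot n w' q) :
    w = w' := by
  rcases h with ⟨e, i, y, -, -, h1⟩ | ⟨y, h1⟩ <;> rcases h' with ⟨e', i', y', -, -, h2⟩ | ⟨y', h2⟩
  · rw [h1] at h2
    obtain ⟨-, -, h3⟩ := pos_inj (List.append_cancel_left h2)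
    exact (pairBits_inj h3).1
  · rw [h1] at h2
    simp at h2
  · rw [h1] at h2
    simp at h2
  · rw [h1] at h2
    exact (pairBits_inj (List.append_cancel_left h2)).1

/-- **The choice of the numbers.** -/
theorem exists_free {n j : ℕ} (hn : 0 < n) (Q : Finset (List Bool)) (hQ : Q.card < n ^ j) :
    ∃ c : ℕ → ℕ, (∀ k, c k < n) ∧ ∀ q ∈ Q, ¬ KeyBy n j c q := by
  classical
  set ext : (Fin j → Fin n) → ℕ → ℕ := fun c k => if h : k < j then (c ⟨k, h⟩ : ℕ) else 0 with hext
  have hlt : ∀ c k, ext c k < n := by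
    intro c k
    rw [hext]
    dsimp only
    split_ifs with h
    · exact (c ⟨k, h⟩).2
    · exact hn
  by_contra hcon
  push Not at hcon
  have h1 : ∀ c : Fin j → Fin n, ∃ q ∈ Q, KeyBy n j (ext c) q := fun c => hcon (ext c) (hlt c)
  choose q hq1 w hq2 hq3 using h1
  have hinj : Function.Injective q := by
    intro c c' h
    have h2 := hq2 c
    rw [h] at h2
    have h3 := h2.unique (hq2 c')
    have h4 := hq3 c
    rw [h3] at h4
    have h5 := h4.unique (hlt c) (hq3 c')
    funext k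
    have h6 := h5 k k.2
    rw [hext] at h6
    dsimp only at h6
    rw [dif_pos k.2, dif_pos k.2] at h6
    exact Fin.ext h6
  have h2 : (Finset.univ.image q).card ≤ Q.card := by
    refine Finset.card_le_card fun x hx => ?_
    obtain ⟨c, -, rfl⟩ := Finset.mem_image.1 hx
    exact hq1 c
  rw [Finset.card_image_of_injective _ hinj, Finset.card_univ, Fintype.card_fun,
    Fintype.card_fin, Fintype.card_fin] at h2
  omega

/-- the string for the test `(a, b)` -/
def xs (a b n : ℕ) : List Bool := pos a b (List.replicate n true)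

theorem length_xs (a b n : ℕ) : (xs a b n).length = a + b + n + 2 := by
  unfold xs
  rw [length_pos, List.length_replicate]

/-- the test `(a, b)` is carried out at the stage `j` -/
def OKs (p : ℕ → ℕ → Polynomial ℕ) (N : ℕ → ℕ) (j a b : ℕ) : Prop :=
  a < j ∧ b < j ∧ (p a b).eval (xs a b (N j)).length * (j * j) < N j ^ j

/-- what is required at the stage `j` -/
def StOK (t : ℕ → ℕ → Oracle → List Bool → Prop) (p : ℕ → ℕ → Polynomial ℕ) (N : ℕ → ℕ)
    (j : ℕ) (B : Oracle) (s : Dt) : Prop :=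
  (∀ k, s.1 k < N j) ∧
  (∀ a b, s.2 a b = true ↔ ¬ (OKs p N j a b ∧ t a b B (xs a b (N j)))) ∧
  ∀ a b, OKs p N j a b → ∃ Q : Finset (List Bool), (∀ q ∈ Q, q.length ≤ N j ^ j) ∧
    (∀ q ∈ Q, ¬ KeyBy (N j) j s.1 q) ∧
    ∀ B' : Oracle, (∀ q ∈ Q, B' q = B q) → (t a b B' (xs a b (N j)) ↔ t a b B (xs a b (N j)))

theorem exists_stage (hN : Good α f I N) {t : ℕ → ℕ → Oracle → List Bool → Prop}
    {p : ℕ → ℕ → Polynomial ℕ} (hp : ∀ a b (B : Oracle) (x : List Bool),
      ∃ Q : Finset (List Bool), Q.card ≤ (p a b).eval x.length ∧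
        (∀ q ∈ Q, q.length ≤ (p a b).eval x.length) ∧
        ∀ B' : Oracle, (∀ q ∈ Q, B' q = B q) → (t a b B' x ↔ t a b B x))
    (j : ℕ) (B : Oracle) : ∃ s : Dt, StOK t p N j B s := by
  classical
  choose Q hQ1 hQ2 hQ3 using fun a b => hp a b B (xs a b (N j))
  set P := (Finset.range j ×ˢ Finset.range j).filter fun q => OKs p N j q.1 q.2 with hP
  have hge := hN.ge j
  have hpos : 0 < N j ^ j := Nat.pow_pos (by omega)
  have hcard : (P.biUnion fun q => Q q.1 q.2).card < N j ^ j := by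
    have h1 : ∀ q ∈ P, (Q q.1 q.2).card ≤ (N j ^ j - 1) / (j * j) := by
      intro q hq
      rw [hP, Finset.mem_filter] at hq
      obtain ⟨h2, h3, h4⟩ := hq.2
      rw [Nat.le_div_iff_mul_le (Nat.mul_pos (by omega) (by omega))]
      have h5 : (Q q.1 q.2).card * (j * j) ≤ (p q.1 q.2).eval (xs q.1 q.2 (N j)).length * (j * j) :=
        Nat.mul_le_mul_right _ (hQ1 _ _)
      omega
    have h2 : (P.biUnion fun q => Q q.1 q.2).card ≤ P.card * ((N j ^ j - 1) / (j * j)) :=
      Finset.card_biUnion_le_card_mul _ _ _ h1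
    have h3 : P.card ≤ j * j := by
      refine (Finset.card_filter_le _ _).trans ?_
      rw [Finset.card_product, Finset.card_range]
    have h4 : P.card * ((N j ^ j - 1) / (j * j)) ≤ (j * j) * ((N j ^ j - 1) / (j * j)) :=
      Nat.mul_le_mul_right _ h3
    have h5 : (j * j) * ((N j ^ j - 1) / (j * j)) ≤ N j ^ j - 1 := Nat.mul_div_le _ _
    omega
  obtain ⟨c, hc1, hc2⟩ := exists_free (by omega) _ hcard
  refine ⟨(c, fun a b => decide ¬ (OKs p N j a b ∧ t a b B (xs a b (N j)))), hc1, fun a b => ?_,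
    fun a b hab => ⟨Q a b, fun q hq => ?_, fun q hq => hc2 q ?_, hQ3 a b⟩⟩
  · exact decide_eq_true_iff
  · refine (hQ2 a b q hq).trans ?_
    obtain ⟨h2, h3, h4⟩ := hab
    have h5 : (p a b).eval (xs a b (N j)).length ≤
        (p a b).eval (xs a b (N j)).length * (j * j) :=
      Nat.le_mul_of_pos_right _ (Nat.mul_pos (by omega) (by omega))
    omega
  · rw [Finset.mem_biUnion]
    refine ⟨(a, b), ?_, hq⟩
    rw [hP, Finset.mem_filter, Finset.mem_product, Finset.mem_range, Finset.mem_range]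
    exact ⟨⟨hab.1, hab.2.1⟩, hab⟩

/-- the density of the tally set -/
theorem TT_dens (hN : Good α f I N) (hf : Monotone f) (σ : ℕ → Dt) (n : ℕ) :
    ((Finset.range (n + 1)).filter fun m => TT N σ m = true).card ≤ f n := by
  classical
  by_cases h0 : ∃ j, N j ≤ n
  · set J := Nat.findGreatest (fun j => N j ≤ n) n with hJ
    have hJ1 : N J ≤ n := by
      obtain ⟨j, hj⟩ := h0
      have := hN.ge j
      exact Nat.findGreatest_spec (P := fun j => N j ≤ n) (m := j) (by omega) hj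
    have hJ2 : ∀ j, N j ≤ n → j ≤ J := fun j hj => by
      have := hN.ge j
      exact Nat.le_findGreatest (by omega) hj
    have h1 : ((Finset.range (n + 1)).filter fun m => TT N σ m = true) ⊆
        ((Finset.range (J + 1)) ×ˢ (Finset.range (J + 1))).image
          fun q => N q.1 ^ 3 + q.2 * N q.1 + (σ q.1).1 q.2 := by
      intro m hm
      rw [Finset.mem_filter, Finset.mem_range] at hm
      obtain ⟨h2, h3⟩ := hm
      unfold TT at h3
      rw [decide_eq_true_eq] at h3
      obtain ⟨j, k, h4, h5⟩ := h3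
      have h6 : N j ≤ N j ^ 3 := Nat.le_self_pow (by norm_num) _
      have h7 := hJ2 j (by omega)
      rw [Finset.mem_image]
      refine ⟨(j, k), ?_, h5.symm⟩
      rw [Finset.mem_product, Finset.mem_range, Finset.mem_range]
      exact ⟨by omega, by omega⟩
    refine (Finset.card_le_card h1).trans (Finset.card_image_le.trans ?_)
    rw [Finset.card_product, Finset.card_range]
    calc (J + 1) * (J + 1) = (J + 1) ^ 2 := by ring
      _ ≤ f (N J) := hN.dens J
      _ ≤ f n := hf hJ1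
  · push Not at h0
    have h1 : ((Finset.range (n + 1)).filter fun m => TT N σ m = true) = ∅ := by
      rw [Finset.filter_eq_empty_iff]
      intro m hm h3
      rw [Finset.mem_range] at hm
      unfold TT at h3
      rw [decide_eq_true_eq] at h3
      obtain ⟨j, k, h4, h5⟩ := h3
      have h6 : N j ≤ N j ^ 3 := Nat.le_self_pow (by norm_num) _
      have := h0 j
      omega
    rw [h1, Finset.card_empty]
    exact Nat.zero_le _

end

end Pool.Agent.J6H49.KW
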