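import Pool.Agent.J6H49.ES.Exact

/-!
# Codes for polynomial space, protected by the elements of a tally set
-/

set_option autoImplicit false

namespace Pool.Agent.J6H49.KW

open Pool.Agent.NPC Pool.Agent.H628R3.RO Filter Pool.Agent.J6H49.OP Pool.Agent.J6H49.IP
open Pool.Agent.J6H54.RO
open Pool.Agent.H620R2.Gauge (SAlg IsPSPACE)
open Pool.Agent.H620R2.Gauge.CC (Acc cut)
open Pool.Agent.TH678.GC (join)
open Pool.Agent.TH678.RS (bt)
open Pool.Agent.Y626.WX (Cp cod agree_emb)
open Pool.Agent.J6H49.PHC (oracle)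
open Pool.Agent.J6H49.ES (pin pin_inj length_pin)

/-- the first `(i + 1) ^ 3` values of `T` -/
def tp (T : ℕ → Bool) (i : ℕ) : List Bool := (List.range ((i + 1) ^ 3)).map T

theorem length_tp (T : ℕ → Bool) (i : ℕ) : (tp T i).length = (i + 1) ^ 3 := by simp [tp]

theorem tp_congr {T T' : ℕ → Bool} {i n : ℕ} (hi : i < n) (h : ∀ m < n ^ 3, T m = T' m) :
    tp T i = tp T' i := by
  unfold tp
  apply List.map_congr_left
  intro m hm
  rw [List.mem_range] at hm
  exact h m (hm.trans_le (Nat.pow_le_pow_left (by omega) 3))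

/-- the true entries of the level `i` -/
def Ent (g : ℕ → SAlg × Polynomial ℕ) (S : ℕ → Polynomial ℕ) (T : ℕ → Bool)
    (Z : ℕ → ℕ → ℕ → Bool) (B : Oracle) (i : ℕ) (u : List Bool) : Prop :=
  (∃ e x N b, u = false :: pos e i (pairBits (tp T i) (b :: pin x N)) ∧
    (S e).eval (pin x N).length ≤ i ∧
    (b = true ↔ Acc (g e).1 (cut ((S e).eval (pin x N).length) B) (pin x N))) ∨
  ∃ a b, u = true :: pairBits (tp T i) (pos a b (List.replicate i true)) ∧ Z a b i = true

theorem Ent.lt {g : ℕ → SAlg × Polynomial ℕ} {S : ℕ → Polynomial ℕ} {T : ℕ → Bool}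
    {Z : ℕ → ℕ → ℕ → Bool} {B : Oracle} {i : ℕ} {u : List Bool} (h : Ent g S T Z B i u) :
    i < u.length := by
  rcases h with ⟨e, x, N, b, rfl, -⟩ | ⟨a, b, rfl, -⟩
  · rw [List.length_cons, length_pos]
    omega
  · rw [List.length_cons, length_pairBits, length_tp]
    have : i + 1 ≤ (i + 1) ^ 3 := Nat.le_self_pow (by norm_num) _
    omega

section

variable {g : ℕ → SAlg × Polynomial ℕ} {S : ℕ → Polynomial ℕ} {Φ : Oracle → Oracle}
  {α : ℕ → ℕ} {C : Oracle}

/-- the oracle with the table `D` -/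
def ow (Φ : Oracle → Oracle) (C D : Oracle) : Oracle := oracle Φ (join C D) fun _ => false

theorem ow_loc (hc : Cp g S (bt α) Φ) {D D' : Oracle} {ℓ : ℕ}
    (h : ∀ u : List Bool, u.length ≤ ℓ → D u = D' u) {q : List Bool} (hq : q.length ≤ ℓ + 1) :
    ow Φ C D q = ow Φ C D' q := by
  unfold ow
  refine O_loc hc (ℓ := ℓ + 1) (fun u hu => ?_) (fun _ _ => rfl) hq
  match u with
  | [] => rfl
  | false :: _ => rfl
  | true :: v =>
    rw [List.length_cons] at hu
    exact h v (by omega)

theorem Ent.congr (hc : Cp g S (bt α) Φ) {T T' : ℕ → Bool} {Z Z' : ℕ → ℕ → ℕ → Bool}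
    {D D' : Oracle} {i : ℕ} (hT : tp T i = tp T' i) (hZ : ∀ a b, Z a b i = Z' a b i)
    (h : ∀ u : List Bool, u.length < i → D u = D' u) (u : List Bool) :
    Ent g S T Z (ow Φ C D) i u ↔ Ent g S T' Z' (ow Φ C D') i u := by
  unfold Ent
  rw [hT]
  refine or_congr ?_ ?_
  · refine exists_congr fun e => exists_congr fun x => exists_congr fun N =>
      exists_congr fun b => and_congr_right fun _ => and_congr_right fun h1 => ?_
    have h2 : cut ((S e).eval (pin x N).length) (ow Φ C D) =
        cut ((S e).eval (pin x N).length) (ow Φ C D') := by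
      funext z
      unfold cut
      split_ifs with hz
      · have h3 : 0 < (S e).eval (pin x N).length := lt_of_lt_of_le (Nat.succ_pos _) (hc.big e _)
        refine ow_loc hc (ℓ := (S e).eval (pin x N).length - 1) (fun v hv => h v ?_) ?_
        · omega
        · omega
      · rfl
    rw [h2]
  · refine exists_congr fun a => exists_congr fun b => ?_
    rw [hZ]

theorem exists_D (hc : Cp g S (bt α) Φ) (C : Oracle) (T : ℕ → Bool) (Z : ℕ → ℕ → ℕ → Bool) :
    ∃ D : Oracle, ∀ u, D u = true ↔ ∃ i, Ent g S T Z (ow Φ C D) i u := by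
  classical
  obtain ⟨D, hD⟩ := exists_fixed (fun D u => decide (∃ i, Ent g S T Z (ow Φ C D) i u)) (by
    intro D D' u hu
    apply decide_eq_decide.2
    constructor
    · rintro ⟨i, hi⟩
      exact ⟨i, (Ent.congr hc rfl (fun _ _ => rfl) (fun v hv => hu v (hv.trans hi.lt)) u).1 hi⟩
    · rintro ⟨i, hi⟩
      exact ⟨i, (Ent.congr hc rfl (fun _ _ => rfl) (fun v hv => hu v (hv.trans hi.lt)) u).2 hi⟩)
  refine ⟨D, fun u => ?_⟩
  rw [hD, decide_eq_true_eq]

/-- the table -/
noncomputable def DD (hc : Cp g S (bt α) Φ) (C : Oracle) (T : ℕ → Bool)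
    (Z : ℕ → ℕ → ℕ → Bool) : Oracle := (exists_D hc C T Z).choose

/-- the oracle -/
noncomputable def OO (hc : Cp g S (bt α) Φ) (C : Oracle) (T : ℕ → Bool)
    (Z : ℕ → ℕ → ℕ → Bool) : Oracle := ow Φ C (DD hc C T Z)

theorem DD_iff (hc : Cp g S (bt α) Φ) {T : ℕ → Bool} {Z : ℕ → ℕ → ℕ → Bool} {u : List Bool} :
    DD hc C T Z u = true ↔ ∃ i, Ent g S T Z (OO hc C T Z) i u :=
  (exists_D hc C T Z).choose_spec u

open Classical in
/-- the part of the table of the levels less than `n` -/
noncomputable def DL (hc : Cp g S (bt α) Φ) (C : Oracle) (T : ℕ → Bool)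
    (Z : ℕ → ℕ → ℕ → Bool) (n : ℕ) : Oracle := fun u =>
  decide (∃ i < n, Ent g S T Z (OO hc C T Z) i u)

/-- the oracle with the part of the table of the levels less than `n` -/
noncomputable def OL (hc : Cp g S (bt α) Φ) (C : Oracle) (T : ℕ → Bool)
    (Z : ℕ → ℕ → ℕ → Bool) (n : ℕ) : Oracle := ow Φ C (DL hc C T Z n)

theorem DL_iff (hc : Cp g S (bt α) Φ) {T : ℕ → Bool} {Z : ℕ → ℕ → ℕ → Bool} {n : ℕ}
    {u : List Bool} : DL hc C T Z n u = true ↔ ∃ i < n, Ent g S T Z (OO hc C T Z) i u := by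
  classical
  unfold DL
  rw [decide_eq_true_eq]

theorem DL_eq (hc : Cp g S (bt α) Φ) {T : ℕ → Bool} {Z : ℕ → ℕ → ℕ → Bool} {n : ℕ}
    {u : List Bool} (hu : u.length ≤ n) : DL hc C T Z n u = DD hc C T Z u := by
  rw [Bool.eq_iff_iff, DL_iff, DD_iff]
  constructor
  · rintro ⟨i, -, h⟩
    exact ⟨i, h⟩
  · rintro ⟨i, h⟩
    exact ⟨i, h.lt.trans_le hu, h⟩

/-- **Locality.** -/
theorem DD_congr (hc : Cp g S (bt α) Φ) {T T' : ℕ → Bool} {Z Z' : ℕ → ℕ → ℕ → Bool} {n : ℕ}
    (hT : ∀ m < n ^ 3, T m = T' m) (hZ : ∀ a b, ∀ i < n, Z a b i = Z' a b i) :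
    ∀ u : List Bool, u.length ≤ n → DD hc C T Z u = DD hc C T' Z' u := by
  have key : ∀ (l : ℕ) (u : List Bool), u.length = l → l ≤ n →
      DD hc C T Z u = DD hc C T' Z' u := by
    intro l
    induction l using Nat.strong_induction_on with
    | _ l ih =>
      intro u hu hl
      rw [Bool.eq_iff_iff, DD_iff, DD_iff]
      constructor
      · rintro ⟨i, hi⟩
        have h1 := hi.lt
        exact ⟨i, (Ent.congr hc (tp_congr (n := n) (by omega) hT)
          (fun a b => hZ a b i (by omega))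
          (fun v hv => ih v.length (by omega) v rfl (by omega)) u).1 hi⟩
      · rintro ⟨i, hi⟩
        have h1 := hi.lt
        exact ⟨i, (Ent.congr hc (tp_congr (n := n) (by omega) hT)
          (fun a b => hZ a b i (by omega))
          (fun v hv => ih v.length (by omega) v rfl (by omega)) u).2 hi⟩
  exact fun u hu => key u.length u rfl hu

theorem DL_congr (hc : Cp g S (bt α) Φ) {T T' : ℕ → Bool} {Z Z' : ℕ → ℕ → ℕ → Bool} {n : ℕ}
    (hT : ∀ m < n ^ 3, T m = T' m) (hZ : ∀ a b, ∀ i < n, Z a b i = Z' a b i) :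
    DL hc C T Z n = DL hc C T' Z' n := by
  funext u
  rw [Bool.eq_iff_iff, DL_iff, DL_iff]
  refine exists_congr fun i => and_congr_right fun hi => ?_
  exact Ent.congr hc (tp_congr hi hT) (fun a b => hZ a b i hi)
    (fun v hv => DD_congr hc hT hZ v (by omega)) u

theorem OL_congr (hc : Cp g S (bt α) Φ) {T T' : ℕ → Bool} {Z Z' : ℕ → ℕ → ℕ → Bool} {n : ℕ}
    (hT : ∀ m < n ^ 3, T m = T' m) (hZ : ∀ a b, ∀ i < n, Z a b i = Z' a b i) :
    OL hc C T Z n = OL hc C T' Z' n := by
  unfold OL
  rw [DL_congr hc hT hZ]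

/-- The question `q` is protected by `w`, at the level `n` or above. -/
def Prot (n : ℕ) (w q : List Bool) : Prop :=
  (∃ e i y, n ≤ i ∧ i < q.length ∧ q = [false, true, true, false] ++ pos e i (pairBits w y)) ∨
  ∃ y, q = [false, true, true, true] ++ pairBits w y

/-- **Questions which are not protected do not see the levels `n` and above.** -/
theorem OO_eq (hc : Cp g S (bt α) Φ) {T : ℕ → Bool} {Z : ℕ → ℕ → ℕ → Bool} {n R : ℕ}
    (hR : ∀ s, n ≤ s → R < s ^ (bt α s + 1)) {q : List Bool} (hq : q.length ≤ R)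
    (hne : ∀ i, n ≤ i → i < q.length → ¬ Prot n (tp T i) q) :
    OO hc C T Z q = OL hc C T Z n q := by
  set D := DD hc C T Z with hD
  set D' := DL hc C T Z n with hD'
  show join (join (fun _ => false) (join C D)) (cod Φ (join (fun _ => false) (join C D))) q =
    join (join (fun _ => false) (join C D')) (cod Φ (join (fun _ => false) (join C D'))) q
  match q with
  | [] => rfl
  | false :: [] => rfl
  | false :: false :: x => rfl
  | false :: true :: [] => rfl
  | false :: true :: false :: x => rfl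
  | false :: true :: true :: v =>
    show D v = D' v
    rw [Bool.eq_iff_iff, hD, hD', DD_iff, DL_iff]
    constructor
    · rintro ⟨i, hi⟩
      refine ⟨i, ?_, hi⟩
      by_contra hcon
      push Not at hcon
      have h1 := hi.lt
      have h2 : i < (false :: true :: true :: v).length := by
        simp only [List.length_cons]
        omega
      refine hne i hcon h2 ?_
      rcases hi with ⟨e, x, N, b, rfl, -⟩ | ⟨a, b, rfl, -⟩
      · exact Or.inl ⟨e, i, b :: pin x N, hcon, h2, rfl⟩
      · exact Or.inr ⟨_, rfl⟩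
    · rintro ⟨i, -, hi⟩
      exact ⟨i, hi⟩
  | true :: u =>
    refine agree_emb hc (L := n) (T := R) hR (A := join (fun _ => false) (join C D))
      (A' := join (fun _ => false) (join C D')) (fun u hu => ?_) (true :: u) hq
    match u with
    | [] => rfl
    | false :: _ => rfl
    | true :: [] => rfl
    | true :: false :: _ => rfl
    | true :: true :: v =>
      show D v = D' v
      rw [List.length_cons, List.length_cons] at hu
      exact (DL_eq hc (by omega)).symm

end

end Pool.Agent.J6H49.KW
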